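import Pool.Agent.J4H3.EQ.Stm

/-! Project EQ, piece (FARM): the mass of `pot a + A log T - log |EE a|` in any box. -/

set_option autoImplicit false

namespace Pool.Agent.J4H75.EQ

open Complex MeasureTheory Filter Topology
open Pool.Agent.J4H3.EQ
open Pool.Agent.J4H4.NG (EE gam S_UPB S_FAR S_REP)

lemma gam_ne (v : ℝ) : gam (2 + I * v) ≠ 0 := by
  unfold gam
  have h1 : (2 + I * v : ℂ).re = 2 := by simp
  have h2 : (2 + I * v : ℂ) ≠ 0 := by
    intro h
    rw [h] at h1
    norm_num at h1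
  have h3 : (2 + I * v : ℂ) - 1 ≠ 0 := by
    intro h
    have h4 : ((2 + I * v : ℂ) - 1).re = 0 := by rw [h]; simp
    rw [Complex.sub_re, h1] at h4
    norm_num at h4
  have h4 : Complex.Gammaℝ (2 + I * v) ≠ 0 := Complex.Gammaℝ_ne_zero_of_re_pos (by rw [h1]; norm_num)
  exact mul_ne_zero (div_ne_zero (mul_ne_zero h2 h3) (by norm_num)) h4

lemma EE_diff (hRep : S_REP) {a : ℝ} (ha : 0 < a) : Differentiable ℂ (EE a) := by
  have h1 := (hRep (4 * a) (by positivity)).2.1
  have h2 : 4 * a / 4 = a := by ring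
  rwa [h2] at h1

/-- the circle averages of `pot a + k` -/
lemma cav_const (hCav : S_CAV) (a k : ℝ) (c : ℂ) (s : ℝ) :
    Real.circleAverage (fun w => pot a w + k) c s = Real.circleAverage (pot a) c s + k := by
  rw [Real.circleAverage_fun_add ((hCav.1 a).continuousOn.circleIntegrable') (circleIntegrable_const k c s)]
  rw [Real.circleAverage_const]

theorem t_FARM : J_FARM := by
  intro hFar hUpp hCav hAvg hRep a A ha
  obtain ⟨c, V₀, hc, hV₀, hfar⟩ := hFar a ha
  obtain ⟨A', T1, hA', hT1, hupp⟩ := hUpp a (5 * a + 6) ha (by positivity)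
  obtain ⟨T2, hT2, hcav⟩ := hCav.2 a (4 * a + 4) ha (by positivity)
  obtain ⟨A2, hA2⟩ : ∃ A2, A2 = |A| + A' := ⟨_, rfl⟩
  have hA20 : 0 < A2 := by rw [hA2]; positivity
  have hAA2 : A ≤ A2 := by rw [hA2]; linarith [le_abs_self A]
  obtain ⟨B0, hB0⟩ : ∃ B0, B0 = (a + 2) ^ 2 / (4 * a) + (4 * a + 4) ^ 2 / (8 * a) + 1 + A2 + |Real.log c| := ⟨_, rfl⟩
  have hB00 : 0 < B0 := by rw [hB0]; positivity
  have hsmall : ∀ e : ℝ, 0 < e → ∀ᶠ T : ℝ in atTop, Real.log T ≤ e * T := by
    intro e he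
    have h1 := Real.isLittleO_log_id_atTop.bound he
    filter_upwards [h1, eventually_ge_atTop 1] with T hT hT1
    rw [Real.norm_eq_abs, Real.norm_eq_abs, id, abs_of_nonneg (by linarith : (0 : ℝ) ≤ T)] at hT
    exact (le_abs_self _).trans hT
  have hev : ∀ᶠ T : ℝ in atTop, (Real.log T ≤ (1 / (2 * (4 * a + 4))) * T ∧ 2 ≤ Real.log T) ∧
      (T1 ≤ T ∧ T2 ≤ T ∧ V₀ ≤ T ∧ 8 ≤ T) := by
    filter_upwards [hsmall (1 / (2 * (4 * a + 4))) (by positivity), Real.tendsto_log_atTop.eventually_ge_atTop 2,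
      eventually_ge_atTop T1, eventually_ge_atTop T2, eventually_ge_atTop V₀, eventually_ge_atTop (8 : ℝ)] with T h1 h2 h3 h4 h5 h6
    exact ⟨⟨h1, h2⟩, h3, h4, h5, h6⟩
  obtain ⟨T3, hT3⟩ := eventually_atTop.1 hev
  refine ⟨Real.pi * (4 * a + 4) ^ 2 * B0, max 2 T3, by positivity, le_max_left _ _, ?_⟩
  intro T hT v hv1 hv2
  obtain ⟨⟨e1, e2⟩, f1, f2, f3, f4⟩ := hT3 T ((le_max_right _ _).trans hT)
  have hT0 : 0 < T := by linarith
  obtain ⟨L, hL⟩ : ∃ L, L = Real.log T := ⟨_, rfl⟩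
  rw [← hL] at e1 e2 ⊢
  have hL0 : 0 < L := by linarith
  have hK0 : 0 < 4 * a + 4 := by positivity
  obtain ⟨R, hR⟩ : ∃ R, R = (4 * a + 4) * L := ⟨_, rfl⟩
  have hR0 : 0 < R := by rw [hR]; positivity
  have hRT : R ≤ T / 2 := by
    rw [hR]
    calc (4 * a + 4) * L ≤ (4 * a + 4) * ((1 / (2 * (4 * a + 4))) * T) := mul_le_mul_of_nonneg_left e1 hK0.le
      _ = T / 2 := by field_simp
  obtain ⟨x, hx⟩ : ∃ x, x = a * Real.log (v / (2 * Real.pi)) := ⟨_, rfl⟩
  have hv0 : 0 < v := by linarith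
  have hpi : 0 < 2 * Real.pi := by positivity
  have hpi3 := Real.pi_gt_three
  have hpi4 := Real.pi_lt_four
  have hx0 : 0 ≤ x := by
    rw [hx]
    apply mul_nonneg ha.le
    apply Real.log_nonneg
    rw [le_div_iff₀ hpi]
    linarith
  have hx1 : x ≤ a * L := by
    rw [hx, hL]
    apply mul_le_mul_of_nonneg_left _ ha.le
    apply Real.log_le_log (by positivity)
    rw [div_le_iff₀ hpi]
    nlinarith
  obtain ⟨g, hg⟩ : ∃ g : ℂ, g = (((3 / 2 + (a * Real.log (v / (2 * Real.pi)) + 2) : ℝ) : ℂ) + I * v) := ⟨_, rfl⟩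
  have hgre : g.re = x + 7 / 2 := by
    rw [hg, ← hx]
    simp
    ring
  have hgim : g.im = v := by
    rw [hg]
    simp
  have hfar1 := hfar v (f3.trans hv1)
  rw [← hg] at hfar1
  have hG : 0 < ‖gam (2 + I * v)‖ := norm_pos_iff.2 (gam_ne v)
  have hEg : 0 < ‖EE a g‖ := lt_of_lt_of_le (by positivity) hfar1
  have hEg' : EE a g ≠ 0 := norm_pos_iff.1 hEg
  have hlog : Real.log c + Real.log ‖gam (2 + I * v)‖ ≤ Real.log ‖EE a g‖ := by
    rw [← Real.log_mul hc.ne' hG.ne']
    exact Real.log_le_log (by positivity) hfar1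
  have hpotg : pot a g = (x + 7 / 2) ^ 2 / (4 * a) + Real.log ‖gam (2 + I * v)‖ := by
    unfold pot
    rw [hgre, hgim]
  have hball := hAvg (EE a) (fun w => pot a w + A2 * L) g R (B0 * L ^ 2) (EE_diff hRep ha) ((hCav.1 a).add continuous_const) hEg' hR0
    (by positivity) ?_ ?_
  · have hsub : Rect (-(a * L)) (a * L) v (v + L) ⊆ Metric.closedBall g R := by
      intro w hw
      obtain ⟨w1, w2, w3, w4⟩ := hw
      rw [Metric.mem_closedBall, dist_eq_norm]
      refine (Complex.norm_le_abs_re_add_abs_im _).trans ?_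
      rw [Complex.sub_re, Complex.sub_im, hgre, hgim]
      have h1 : |w.re - (x + 7 / 2)| ≤ 2 * (a * L) + 7 / 2 := by
        rw [abs_le]
        constructor <;> linarith
      have h2 : |w.im - v| ≤ L := by
        rw [abs_le]
        constructor <;> linarith
      rw [hR]
      nlinarith
    calc ∫⁻ w in Rect (-(a * L)) (a * L) v (v + L), ENNReal.ofReal (pot a w + A * L - Real.log ‖EE a w‖)
        ≤ ∫⁻ w in Rect (-(a * L)) (a * L) v (v + L), ENNReal.ofReal (pot a w + A2 * L - Real.log ‖EE a w‖) := by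
          apply lintegral_mono
          intro w
          apply ENNReal.ofReal_le_ofReal
          have := mul_le_mul_of_nonneg_right hAA2 hL0.le
          linarith
      _ ≤ ∫⁻ w in Metric.closedBall g R, ENNReal.ofReal (pot a w + A2 * L - Real.log ‖EE a w‖) := lintegral_mono_set hsub
      _ ≤ ENNReal.ofReal (Real.pi * R ^ 2 * (B0 * L ^ 2)) := hball
      _ = ENNReal.ofReal (Real.pi * (4 * a + 4) ^ 2 * B0 * L ^ 4) := by
          congr 1
          rw [hR]
          ring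
  · -- upper bound
    intro w hw hEw
    have h1 : |w.re - g.re| ≤ R := by
      have := Complex.abs_re_le_norm (w - g)
      rw [Complex.sub_re] at this
      linarith
    have h2 : |w.im - g.im| ≤ R := by
      have := Complex.abs_im_le_norm (w - g)
      rw [Complex.sub_im] at this
      linarith
    rw [hgre] at h1
    rw [hgim] at h2
    have h3 := hupp T f1 w (by
      rw [← hL, abs_le]
      have h4 := abs_le.1 h1
      rw [hR] at h4
      constructor
      · nlinarith [h4.1]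
      · nlinarith [h4.2]) (by
      have h4 := abs_le.1 h2
      linarith [h4.1]) hEw
    rw [← hL] at h3
    have h4 : A' * L ≤ A2 * L := by
      apply mul_le_mul_of_nonneg_right _ hL0.le
      rw [hA2]
      linarith [abs_nonneg A]
    show Real.log ‖EE a w‖ ≤ pot a w + A2 * L
    linarith
  · -- circle averages
    intro s hs0 hsR
    rw [cav_const hCav]
    have h1 := hcav T f2 g s (by rw [hgim]; linarith) hs0 (by rw [← hL, ← hR]; exact hsR)
    have h2 := (abs_le.1 h1).2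
    have h3 : s ^ 2 / (8 * a) ≤ (4 * a + 4) ^ 2 / (8 * a) * L ^ 2 := by
      have h4 : s ^ 2 ≤ R ^ 2 := pow_le_pow_left₀ hs0.le hsR 2
      calc s ^ 2 / (8 * a) ≤ R ^ 2 / (8 * a) := div_le_div_of_nonneg_right h4 (by positivity)
        _ = _ := by rw [hR]; ring
    have h4 : (x + 7 / 2) ^ 2 / (4 * a) ≤ (a + 2) ^ 2 / (4 * a) * L ^ 2 := by
      have h5 : (x + 7 / 2) ^ 2 ≤ ((a + 2) * L) ^ 2 := by
        apply pow_le_pow_left₀ (by positivity)
        linarith
      calc (x + 7 / 2) ^ 2 / (4 * a) ≤ ((a + 2) * L) ^ 2 / (4 * a) := div_le_div_of_nonneg_right h5 (by positivity)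
        _ = _ := by ring
    have hL1 : L ≤ L ^ 2 := by nlinarith
    have hL2 : 1 ≤ L ^ 2 := by nlinarith
    have h5 : A2 * L ≤ A2 * L ^ 2 := mul_le_mul_of_nonneg_left hL1 hA20.le
    have h6 : |Real.log c| ≤ |Real.log c| * L ^ 2 := le_mul_of_one_le_right (abs_nonneg _) hL2
    have h7 := neg_abs_le (Real.log c)
    rw [hpotg] at h2
    have h8 : B0 * L ^ 2 = (a + 2) ^ 2 / (4 * a) * L ^ 2 + (4 * a + 4) ^ 2 / (8 * a) * L ^ 2 + L ^ 2 + A2 * L ^ 2 + |Real.log c| * L ^ 2 := by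
      rw [hB0]
      ring
    rw [h8]
    linarith

end Pool.Agent.J4H75.EQ
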