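import Pool.Agent.J4H3.EQ.Stm

/-! Project EQ, piece (UPP): the upper bound for `log |EE a|`. -/

set_option autoImplicit false

namespace Pool.Agent.J4H75.EQ

open Complex MeasureTheory Filter Topology
open Pool.Agent.J4H3.EQ
open Pool.Agent.J4H4.NG (EE gam S_UPB)

theorem t_UPP : J_UPP := by
  intro hU a K ha hK
  obtain ⟨C, V₀, hC, hV₀, h⟩ := hU a ha
  have hl2 : 0 < Real.log 2 := Real.log_pos (by norm_num)
  refine ⟨3 * K / (4 * a) + (9 / 4 / (4 * a) + |Real.log C|) / Real.log 2, max 2 (2 * V₀), by positivity, le_max_left _ _, ?_⟩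
  intro T hT w hw1 hw2 hw3
  have hT2 : 2 ≤ T := (le_max_left _ _).trans hT
  have hTV : 2 * V₀ ≤ T := (le_max_right _ _).trans hT
  have hL : Real.log 2 ≤ Real.log T := Real.log_le_log (by norm_num) hT2
  have hv : V₀ ≤ w.im := by linarith
  have h1 := h w.im hv (w.re - 3 / 2)
  have hweq : (((3 / 2 + (w.re - 3 / 2) : ℝ) : ℂ) + I * w.im) = w := by
    apply Complex.ext <;> simp
  rw [hweq] at h1
  have hE : 0 < ‖EE a w‖ := norm_pos_iff.2 hw3
  have hG0 : 0 ≤ ‖gam (2 + I * w.im)‖ := norm_nonneg _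
  have hG : 0 < ‖gam (2 + I * w.im)‖ := by
    rcases hG0.lt_or_eq with h2 | h2
    · exact h2
    · rw [← h2, mul_zero] at h1
      linarith
  have h2 := Real.log_le_log hE h1
  rw [Real.log_mul (by positivity) hG.ne', Real.log_mul hC.ne' (Real.exp_pos _).ne', Real.log_exp] at h2
  have h3 : (w.re - 3 / 2) ^ 2 / (4 * a) ≤ w.re ^ 2 / (4 * a) + (3 * K * Real.log T + 9 / 4) / (4 * a) := by
    rw [← add_div]
    apply div_le_div_of_nonneg_right _ (by positivity)
    have := neg_le_of_abs_le hw1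
    nlinarith
  have h4 : (9 / 4 / (4 * a) + |Real.log C|) ≤ (9 / 4 / (4 * a) + |Real.log C|) / Real.log 2 * Real.log T := by
    rw [div_mul_eq_mul_div, le_div_iff₀ hl2]
    exact mul_le_mul_of_nonneg_left hL (by positivity)
  have h5 : (3 * K * Real.log T + 9 / 4) / (4 * a) = 3 * K / (4 * a) * Real.log T + 9 / 4 / (4 * a) := by
    ring
  have h6 := le_abs_self (Real.log C)
  unfold pot
  rw [add_mul]
  linarith

end Pool.Agent.J4H75.EQ
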